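import Pool.Agent.helper74.MQ.Spec
import Pool.Agent.helper70.MQ.DPR
import Pool.Agent.helper97.MQ.SYM

/-! # Project mq, module STR: the maximal strip below a critical direction -/

set_option autoImplicit false

open Complex Metric Set Filter Topology MeasureTheory MPS

noncomputable section

namespace MQ

section
variable {k : ℕ} [NeZero k]

lemma STR_conv {A B : Set ℝ} (hA : Convex ℝ A) (hB : Convex ℝ B) : Convex ℝ (A ×ℂ B) := by
  have h3 : (A ×ℂ B) = Complex.reLm ⁻¹' A ∩ Complex.imLm ⁻¹' B := by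
    ext z
    rw [mem_reProdIm]
    simp only [mem_inter_iff, mem_preimage, Complex.imLm_coe, Complex.reLm_coe]
  rw [h3]
  exact (hA.linear_preimage _).inter (hB.linear_preimage _)

lemma STR_id {f h : ℂ → ℂ} {U V : Set ℂ} (hU : IsOpen U) (hc : IsPreconnected U)
    (hf : DifferentiableOn ℂ f U) (hh : DifferentiableOn ℂ h U) (hV : IsOpen V) (hVU : V ⊆ U)
    (hne : V.Nonempty) (he : EqOn f h V) : EqOn f h U := by
  obtain ⟨z, hz⟩ := hne
  exact (hf.analyticOnNhd hU).eqOn_of_preconnected_of_eventuallyEq (hh.analyticOnNhd hU) hc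
    (hVU hz) (by filter_upwards [hV.mem_nhds hz] with w hw using he hw)

lemma STR_union {ι : Type} {b g : ZMod k → ℂ} (U : ι → Set ℂ) (χ : ι → ℂ → ℂ)
    (ho : ∀ a, IsOpen (U a)) (hn : ∀ a, IsNat b g (χ a) (U a))
    (hag : ∀ a c, EqOn (χ a) (χ c) (U a ∩ U c)) :
    ∃ χ' : ℂ → ℂ, IsNat b g χ' (⋃ a, U a) ∧ ∀ a, EqOn χ' (χ a) (U a) := by
  classical
  have hE : ∀ a, EqOn (fun w => if h : ∃ a, w ∈ U a then χ h.choose w else 0) (χ a) (U a) := by
    intro a w hw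
    have h : ∃ a, w ∈ U a := ⟨a, hw⟩
    show (if h : ∃ a, w ∈ U a then χ h.choose w else 0) = _
    rw [dif_pos h]
    exact hag _ _ ⟨h.choose_spec, hw⟩
  refine ⟨fun w => if h : ∃ a, w ∈ U a then χ h.choose w else 0, NOSL_local ?_, hE⟩
  intro w hw
  obtain ⟨a, ha⟩ := mem_iUnion.1 hw
  exact ⟨χ a, U a, ho a, ha, hn a, by
    filter_upwards [(ho a).mem_nhds ha] with z hz using hE a hz⟩

lemma STR_agree {b g : ZMod k → ℂ} {ψ ψ' χ χ' : ℂ → ℂ} {S : ℂ} {y₁ y₂ y₁' y₂' : ℝ}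
    (h : IsStrip b g ψ ψ' S y₁ y₂ χ) (h' : IsStrip b g ψ ψ' S y₁' y₂' χ') :
    EqOn χ χ' ({w | y₁ < w.im ∧ w.im < y₂} ∩ {w | y₁' < w.im ∧ w.im < y₂'}) := by
  intro w hw
  have hw1 := hw.1
  have hw2 := hw.2
  simp only [mem_ofPred_eq] at hw1 hw2
  have key : EqOn χ χ' (univ ×ℂ Ioo (max y₁ y₁') (min y₂ y₂')) := by
    refine STR_id (V := Iio 0 ×ℂ Ioo (max y₁ y₁') (min y₂ y₂'))
      (isOpen_univ.reProdIm isOpen_Ioo) (STR_conv convex_univ (convex_Ioo _ _)).isPreconnected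
      (h.nat.diff.mono ?_) (h'.nat.diff.mono ?_) (isOpen_Iio.reProdIm isOpen_Ioo) ?_ ?_ ?_
    · intro z hz
      rw [mem_reProdIm] at hz
      exact ⟨(le_max_left _ _).trans_lt hz.2.1, hz.2.2.trans_le (min_le_left _ _)⟩
    · intro z hz
      rw [mem_reProdIm] at hz
      exact ⟨(le_max_right _ _).trans_lt hz.2.1, hz.2.2.trans_le (min_le_right _ _)⟩
    · intro z hz
      rw [mem_reProdIm] at hz ⊢
      exact ⟨mem_univ _, hz.2⟩
    · refine ⟨⟨-1, w.im⟩, ?_⟩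
      rw [mem_reProdIm]
      exact ⟨by norm_num, max_lt hw1.1 hw2.1, lt_min hw1.2 hw2.2⟩
    · intro z hz
      rw [mem_reProdIm] at hz
      have h0 : z.re < 0 := hz.1
      rw [h.left z ((le_max_left _ _).trans_lt hz.2.1) (hz.2.2.trans_le (min_le_left _ _)) h0,
        h'.left z ((le_max_right _ _).trans_lt hz.2.1) (hz.2.2.trans_le (min_le_right _ _)) h0]
  exact key (by rw [mem_reProdIm]; exact ⟨mem_univ _, max_lt hw1.1 hw2.1, lt_min hw1.2 hw2.2⟩)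

lemma STR_sup {b g : ZMod k → ℂ} {ψ ψ' : ℂ → ℂ} {S : ℂ} {y w₀ : ℝ}
    (h : ∀ w < w₀, Strip b g ψ ψ' S (y - w) y) : Strip b g ψ ψ' S (y - w₀) y := by
  choose! χ hχ using h
  obtain ⟨χ', hn, he⟩ := STR_union (b := b) (g := g)
    (fun a : {w : ℝ // w < w₀} => {w : ℂ | y - a.1 < w.im ∧ w.im < y})
    (fun a => χ a.1) (fun a => SYM_open _ _) (fun a => (hχ a.1 a.2).nat)
    (fun a c => STR_agree (hχ a.1 a.2) (hχ c.1 c.2))
  have hx : ∀ z : ℂ, y - w₀ < z.im → ∃ a : {w : ℝ // w < w₀}, y - a.1 < z.im := by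
    intro z hz
    exact ⟨⟨((y - z.im) + w₀) / 2, by linarith⟩, by show y - ((y - z.im) + w₀) / 2 < z.im; linarith⟩
  refine ⟨χ', NOSL_mono hn ?_, ?_, ?_⟩
  · intro z hz
    obtain ⟨a, ha⟩ := hx z hz.1
    exact mem_iUnion.2 ⟨a, ha, hz.2⟩
  · intro z h1 h2 h3
    obtain ⟨a, ha⟩ := hx z h1
    rw [he a ⟨ha, h2⟩]
    exact (hχ a.1 a.2).left z ha h2 h3
  · intro z h1 h2 h3
    obtain ⟨a, ha⟩ := hx z h1
    rw [he a ⟨ha, h2⟩]
    exact (hχ a.1 a.2).right z ha h2 h3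

lemma STR_ext {b g : ZMod k → ℂ} {ψ ψ' : ℂ → ℂ} {S : ℂ} {η y t₁ t₂ : ℝ} (hηy : η < y)
    (h : Strip b g ψ ψ' S η y) (h1 : ¬ Slit b g ψ t₁ η) (h2 : ¬ Slit b g ψ' t₂ (S.im - η))
    (hlt : S.re < t₁ + t₂) : ∃ e > (0 : ℝ), Strip b g ψ ψ' S (η - e) y := by
  unfold Slit at h1 h2
  rw [not_not] at h1 h2
  obtain ⟨e₁, he₁, χ₁, hn₁, hq₁⟩ := h1
  obtain ⟨e₂, he₂, χ₂, hn₂, hq₂⟩ := h2
  obtain ⟨χ₀, hχ₀⟩ := h
  obtain ⟨e, he, hee₁, hee₂, hey⟩ : ∃ e > (0 : ℝ), e ≤ e₁ ∧ e ≤ e₂ ∧ η + e ≤ y := by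
    refine ⟨min (min e₁ e₂) (y - η), lt_min (lt_min he₁ he₂) (by linarith), ?_, ?_, ?_⟩
    · exact (min_le_left _ _).trans (min_le_left _ _)
    · exact (min_le_left _ _).trans (min_le_right _ _)
    · have := min_le_right (min e₁ e₂) (y - η)
      linarith
  obtain ⟨M₁, hM₁, hM₁0, hM₁t⟩ : ∃ M₁ : ℝ, (∀ x : ℝ, x < M₁ → x < 0 ∨ x < t₁ + e₁) ∧ 0 ≤ M₁ ∧
      t₁ + e₁ ≤ M₁ :=
    ⟨max 0 (t₁ + e₁), fun x hx => lt_max_iff.1 hx, le_max_left _ _, le_max_right _ _⟩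
  obtain ⟨M₂, hM₂, hM₂0, hM₂t⟩ : ∃ M₂ : ℝ, (∀ x : ℝ, M₂ < x → S.re < x ∨ S.re - t₂ - e₂ < x) ∧
      M₂ ≤ S.re ∧ M₂ ≤ S.re - t₂ - e₂ :=
    ⟨min S.re (S.re - t₂ - e₂), fun x hx => min_lt_iff.1 hx, min_le_left _ _, min_le_right _ _⟩
  have hMM : M₂ < M₁ := by linarith
  have hB₁ : IsNat b g χ₁ (Iio M₁ ×ℂ Ioo (η - e) (η + e)) := by
    refine NOSL_mono hn₁ ?_
    intro w hw
    rw [mem_reProdIm] at hw
    rcases hM₁ w.re hw.1 with h0 | h0
    · exact Or.inl (SYM_HP.2 h0)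
    · refine Or.inr ⟨?_, h0⟩
      rw [abs_lt]
      constructor
      · linarith [hw.2.1]
      · linarith [hw.2.2]
  have hB₂ : IsNat b g (fun w => χ₂ (S - w)) (Ioi M₂ ×ℂ Ioo (η - e) (η + e)) := by
    refine NOSL_mono (SYM_refl hn₂ S) ?_
    intro w hw
    rw [mem_reProdIm] at hw
    show S - w ∈ (HP 0 ∪ {w : ℂ | |w.im - (S.im - η)| < e₂ ∧ w.re < t₂ + e₂})
    rcases hM₂ w.re hw.1 with h0 | h0
    · refine Or.inl (SYM_HP.2 ?_)
      rw [sub_re]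
      linarith
    · refine Or.inr ⟨?_, ?_⟩
      · rw [abs_lt, sub_im]
        constructor
        · linarith [hw.2.2]
        · linarith [hw.2.1]
      · rw [sub_re]
        linarith
  have hB₀ : IsNat b g χ₀ (univ ×ℂ Ioo η y) := by
    refine NOSL_mono hχ₀.nat ?_
    intro w hw
    rw [mem_reProdIm] at hw
    exact hw.2
  have hne : ∀ A : Set ℝ, A.Nonempty → (A ×ℂ Ioo η (η + e)).Nonempty := by
    rintro A ⟨x, hx⟩
    refine ⟨⟨x, η + e / 2⟩, ?_⟩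
    rw [mem_reProdIm]
    exact ⟨hx, by show η < η + e / 2; linarith, by show η + e / 2 < η + e; linarith⟩
  -- agreement of χ₁ and χ₀
  have A01 : EqOn χ₁ χ₀ (Iio M₁ ×ℂ Ioo η (η + e)) := by
    refine STR_id (V := Iio 0 ×ℂ Ioo η (η + e))
      (isOpen_Iio.reProdIm isOpen_Ioo) (STR_conv (convex_Iio _) (convex_Ioo _ _)).isPreconnected
      (hB₁.diff.mono ?_) (hB₀.diff.mono ?_) (isOpen_Iio.reProdIm isOpen_Ioo) ?_
      (hne _ ⟨-1, by norm_num⟩) ?_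
    · intro z hz
      rw [mem_reProdIm] at hz ⊢
      exact ⟨hz.1, by linarith [hz.2.1], hz.2.2⟩
    · intro z hz
      rw [mem_reProdIm] at hz ⊢
      exact ⟨mem_univ _, hz.2.1, by linarith [hz.2.2]⟩
    · intro z hz
      rw [mem_reProdIm] at hz ⊢
      exact ⟨lt_of_lt_of_le hz.1 hM₁0, hz.2⟩
    · intro z hz
      rw [mem_reProdIm] at hz
      have h0 : z.re < 0 := hz.1
      rw [hq₁ (SYM_HP.2 h0), hχ₀.left z hz.2.1 (by linarith [hz.2.2]) h0]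
  have A02 : EqOn (fun w => χ₂ (S - w)) χ₀ (Ioi M₂ ×ℂ Ioo η (η + e)) := by
    refine STR_id (V := Ioi S.re ×ℂ Ioo η (η + e))
      (isOpen_Ioi.reProdIm isOpen_Ioo) (STR_conv (convex_Ioi _) (convex_Ioo _ _)).isPreconnected
      (hB₂.diff.mono ?_) (hB₀.diff.mono ?_) (isOpen_Ioi.reProdIm isOpen_Ioo) ?_
      (hne _ ⟨S.re + 1, by simp⟩) ?_
    · intro z hz
      rw [mem_reProdIm] at hz ⊢
      exact ⟨hz.1, by linarith [hz.2.1], hz.2.2⟩
    · intro z hz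
      rw [mem_reProdIm] at hz ⊢
      exact ⟨mem_univ _, hz.2.1, by linarith [hz.2.2]⟩
    · intro z hz
      rw [mem_reProdIm] at hz ⊢
      exact ⟨lt_of_le_of_lt hM₂0 hz.1, hz.2⟩
    · intro z hz
      rw [mem_reProdIm] at hz
      have h0 : S.re < z.re := hz.1
      show χ₂ (S - z) = χ₀ z
      rw [hq₂ (SYM_HP.2 (by rw [sub_re]; linarith)),
        hχ₀.right z hz.2.1 (by linarith [hz.2.2]) h0]
  have A12 : EqOn χ₁ (fun w => χ₂ (S - w)) (Ioo M₂ M₁ ×ℂ Ioo (η - e) (η + e)) := by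
    refine STR_id (V := Ioo M₂ M₁ ×ℂ Ioo η (η + e))
      (isOpen_Ioo.reProdIm isOpen_Ioo) (STR_conv (convex_Ioo _ _) (convex_Ioo _ _)).isPreconnected
      (hB₁.diff.mono ?_) (hB₂.diff.mono ?_) (isOpen_Ioo.reProdIm isOpen_Ioo) ?_
      (hne _ (nonempty_Ioo.2 hMM)) ?_
    · intro z hz
      rw [mem_reProdIm] at hz ⊢
      exact ⟨hz.1.2, hz.2⟩
    · intro z hz
      rw [mem_reProdIm] at hz ⊢
      exact ⟨hz.1.1, hz.2⟩
    · intro z hz
      rw [mem_reProdIm] at hz ⊢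
      exact ⟨hz.1, by linarith [hz.2.1], hz.2.2⟩
    · intro z hz
      rw [mem_reProdIm] at hz
      rw [A01 (by rw [mem_reProdIm]; exact ⟨hz.1.2, hz.2⟩),
        ← A02 (by rw [mem_reProdIm]; exact ⟨hz.1.1, hz.2⟩)]
  obtain ⟨χ', hn, hE⟩ := STR_union (b := b) (g := g)
    ![Iio M₁ ×ℂ Ioo (η - e) (η + e), Ioi M₂ ×ℂ Ioo (η - e) (η + e), univ ×ℂ Ioo η y]
    ![χ₁, (fun w => χ₂ (S - w)), χ₀]
    (by
      intro a
      fin_cases a
      · exact isOpen_Iio.reProdIm isOpen_Ioo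
      · exact isOpen_Ioi.reProdIm isOpen_Ioo
      · exact isOpen_univ.reProdIm isOpen_Ioo)
    (by
      intro a
      fin_cases a
      · exact hB₁
      · exact hB₂
      · exact hB₀)
    (by
      have c01 : EqOn χ₁ χ₀ ((Iio M₁ ×ℂ Ioo (η - e) (η + e)) ∩ (univ ×ℂ Ioo η y)) := by
        intro z hz
        rw [mem_inter_iff, mem_reProdIm, mem_reProdIm] at hz
        exact A01 (by rw [mem_reProdIm]; exact ⟨hz.1.1, hz.2.2.1, hz.1.2.2⟩)
      have c02 : EqOn (fun w => χ₂ (S - w)) χ₀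
          ((Ioi M₂ ×ℂ Ioo (η - e) (η + e)) ∩ (univ ×ℂ Ioo η y)) := by
        intro z hz
        rw [mem_inter_iff, mem_reProdIm, mem_reProdIm] at hz
        exact A02 (by rw [mem_reProdIm]; exact ⟨hz.1.1, hz.2.2.1, hz.1.2.2⟩)
      have c12 : EqOn χ₁ (fun w => χ₂ (S - w))
          ((Iio M₁ ×ℂ Ioo (η - e) (η + e)) ∩ (Ioi M₂ ×ℂ Ioo (η - e) (η + e))) := by
        intro z hz
        rw [mem_inter_iff, mem_reProdIm, mem_reProdIm] at hz
        exact A12 (by rw [mem_reProdIm]; exact ⟨⟨hz.2.1, hz.1.1⟩, hz.1.2⟩)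
      intro a c
      fin_cases a <;> fin_cases c
      · exact fun z _ => rfl
      · exact c12
      · exact c01
      · exact fun z hz => (c12 ⟨hz.2, hz.1⟩).symm
      · exact fun z _ => rfl
      · exact c02
      · exact fun z hz => (c01 ⟨hz.2, hz.1⟩).symm
      · exact fun z hz => (c02 ⟨hz.2, hz.1⟩).symm
      · exact fun z _ => rfl)
  refine ⟨e, he, χ', NOSL_mono hn ?_, ?_, ?_⟩
  · intro z hz
    rw [mem_iUnion]
    by_cases hη : η < z.im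
    · refine ⟨2, ?_⟩
      show z ∈ univ ×ℂ Ioo η y
      rw [mem_reProdIm]
      exact ⟨mem_univ _, hη, hz.2⟩
    · push Not at hη
      by_cases hr : z.re < M₁
      · refine ⟨0, ?_⟩
        show z ∈ Iio M₁ ×ℂ Ioo (η - e) (η + e)
        rw [mem_reProdIm]
        exact ⟨hr, hz.1, by linarith⟩
      · push Not at hr
        refine ⟨1, ?_⟩
        show z ∈ Ioi M₂ ×ℂ Ioo (η - e) (η + e)
        rw [mem_reProdIm]
        exact ⟨lt_of_lt_of_le hMM hr, hz.1, by linarith⟩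
  · intro z h1 h2 h3
    by_cases hη : η < z.im
    · have hz : z ∈ univ ×ℂ Ioo η y := by
        rw [mem_reProdIm]
        exact ⟨mem_univ _, hη, h2⟩
      have := hE 2 hz
      rw [this]
      exact hχ₀.left z hη h2 h3
    · push Not at hη
      have hz : z ∈ Iio M₁ ×ℂ Ioo (η - e) (η + e) := by
        rw [mem_reProdIm]
        exact ⟨lt_of_lt_of_le h3 hM₁0, h1, by linarith⟩
      have := hE 0 hz
      rw [this]
      exact hq₁ (SYM_HP.2 h3)
  · intro z h1 h2 h3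
    by_cases hη : η < z.im
    · have hz : z ∈ univ ×ℂ Ioo η y := by
        rw [mem_reProdIm]
        exact ⟨mem_univ _, hη, h2⟩
      have := hE 2 hz
      rw [this]
      exact hχ₀.right z hη h2 h3
    · push Not at hη
      have hz : z ∈ Ioi M₂ ×ℂ Ioo (η - e) (η + e) := by
        rw [mem_reProdIm]
        exact ⟨lt_of_le_of_lt hM₂0 h3, h1, by linarith⟩
      have := hE 1 hz
      rw [this]
      exact hq₂ (SYM_HP.2 (by rw [sub_re]; linarith))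

end

theorem STR (hSYM : SYM_stmt) : STR_stmt := by
  intro k _ b g ψ hF i l S y e T he hstr hdep
  have hpi : PN b g i (ψ i) 1 := (hF.mx i).pn
  have hpl : PN b g l (ψ l) 1 := (hF.mx l).pn
  set W : Set ℝ := {w | 0 < w ∧ Strip b g (ψ i) (ψ l) S (y - w) y} with hW
  have heW : e ∈ W := ⟨he, hstr⟩
  have hb : ∀ w ∈ W, w ≤ 2 * Real.pi := by
    intro w hw
    by_contra hc
    push Not at hc
    obtain ⟨-, h2, -, -, -⟩ := hSYM k b g i l (ψ i) (ψ l) hpi hpl S (y - w) y hw.2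
    obtain ⟨-, h3⟩ := h2 1
    obtain ⟨-, -, -, h4, -⟩ := hSYM k b g i l (ψ i) (ψ l) hpi hpl _ _ _ h3
    refine h4 y T ?_ ?_ hdep.1
    · push_cast
      linarith
    · push_cast
      linarith [Real.pi_pos]
  have hbd : BddAbove W := ⟨2 * Real.pi, hb⟩
  set w₀ := sSup W with hw₀
  have hew : e ≤ w₀ := le_csSup hbd heW
  have hs0 : Strip b g (ψ i) (ψ l) S (y - w₀) y := by
    refine STR_sup ?_
    intro w hw
    obtain ⟨w', hw', hlt⟩ := exists_lt_of_lt_csSup ⟨e, heW⟩ hw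
    obtain ⟨-, -, h3, -, -⟩ := hSYM k b g i l (ψ i) (ψ l) hpi hpl S (y - w') y hw'.2
    exact h3 _ _ (by linarith) le_rfl
  have hkey : ∀ t₁ t₂ : ℝ, ¬ Slit b g (ψ i) t₁ (y - w₀) → ¬ Slit b g (ψ l) t₂ (S.im - y + w₀) →
      t₁ + t₂ ≤ S.re := by
    intro t₁ t₂ h1 h2
    by_contra hc
    push Not at hc
    have h2' : ¬ Slit b g (ψ l) t₂ (S.im - (y - w₀)) := by
      have : S.im - (y - w₀) = S.im - y + w₀ := by ring
      rwa [this]
    obtain ⟨e', he', h3⟩ := STR_ext (by linarith) hs0 h1 h2' hc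
    have h4 : w₀ + e' ∈ W := by
      refine ⟨by linarith, ?_⟩
      have : y - (w₀ + e') = y - w₀ - e' := by ring
      rw [this]
      exact h3
    have := le_csSup hbd h4
    linarith
  have hsa : Slit b g (ψ i) (S.re + 2) (y - w₀) := by
    by_contra hc
    have := hkey _ (-1) hc (DPR_neg hpl (by norm_num))
    linarith
  have hsb : Slit b g (ψ l) (S.re + 2) (S.im - y + w₀) := by
    by_contra hc
    have := hkey (-1) _ (DPR_neg hpi (by norm_num)) hc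
    linarith
  obtain ⟨ta, -, hta⟩ := DPR_one hpi hsa
  obtain ⟨tb, -, htb⟩ := DPR_one hpl hsb
  refine ⟨w₀, ta, tb, hew, hs0, hta, htb, ?_⟩
  by_contra hc
  push Not at hc
  have := hkey (ta - (ta + tb - S.re) / 3) (tb - (ta + tb - S.re) / 3)
    (hta.2 _ (by linarith)) (htb.2 _ (by linarith))
  linarith

end MQ
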